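import Pool.Agent.X79.EC.Stm

set_option autoImplicit false

namespace Pool.Agent.X326.EC

open Finset Polynomial

/-- a monic complex polynomial all of whose roots are `0` or `z ≠ 0` -/
lemma two_roots {P : ℂ[X]} (hP : P.Monic) {z : ℂ} (hz : z ≠ 0)
    (h : ∀ w ∈ P.roots, w = 0 ∨ w = z) :
    P = X ^ (P.roots.count 0) * (X - C z) ^ (P.roots.count z) := by
  classical
  have h1 : (P.roots.map (fun a => X - C a)).prod = P := by
    apply prod_multiset_X_sub_C_of_monic_of_roots_card_eq hP
    exact (IsAlgClosed.splits P).natDegree_eq_card_roots.symm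
  have h2 : P.roots = Multiset.replicate (P.roots.count 0) 0 + Multiset.replicate (P.roots.count z) z := by
    ext w
    rw [Multiset.count_add, Multiset.count_replicate, Multiset.count_replicate]
    by_cases hw : w ∈ P.roots
    · rcases h w hw with rfl | rfl
      · simp [hz]
      · simp [Ne.symm hz]
    · have h3 : P.roots.count w = 0 := Multiset.count_eq_zero.2 hw
      rw [h3]
      split_ifs with h4 h5 h5
      · subst h4; subst h5; exact absurd rfl hz
      · subst h4; simp [h3]
      · subst h5; simp [h3]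
      · rfl
  conv_lhs => rw [← h1, h2]
  rw [Multiset.map_add, Multiset.prod_add, Multiset.map_replicate, Multiset.map_replicate,
    Multiset.prod_replicate, Multiset.prod_replicate, C_0, sub_zero]

/-- the three coefficients of `(y - 1) ^ r (y + a) ^ k` -/
lemma coeffs {r k : ℕ} {a : ℂ} (hm : 3 ≤ r + k) :
    let q : ℂ[X] := (X - 1) ^ r * (X + C a) ^ k
    let m := r + k
    q.coeff (m - 1) = k * a - r ∧
    2 * q.coeff (m - 2) = (1 + (a - 1) * (m - 1) - (r * a - k) - 1) * q.coeff (m - 1) - a * m ∧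
    3 * q.coeff (m - 3) = ((a - 1) * (m - 2) - (r * a - k)) * q.coeff (m - 2) - a * (m - 1) * q.coeff (m - 1) := by
  intro q m
  have hq : q.Monic := by
    apply Monic.mul
    · apply Monic.pow
      have := monic_X_sub_C (1 : ℂ)
      rwa [C_1] at this
    · exact (monic_X_add_C a).pow k
  have hdeg : q.natDegree = m := by
    have h1 : ((X : ℂ[X]) - 1).natDegree = 1 := by
      have := natDegree_X_sub_C (1 : ℂ)
      rwa [C_1] at this
    have h2 : ((X : ℂ[X]) - 1).Monic := by
      have := monic_X_sub_C (1 : ℂ)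
      rwa [C_1] at this
    show ((X - 1) ^ r * (X + C a) ^ k : ℂ[X]).natDegree = m
    rw [(h2.pow r).natDegree_mul ((monic_X_add_C a).pow k), h2.natDegree_pow, (monic_X_add_C a).natDegree_pow,
      h1, natDegree_X_add_C]
    simp [m]
  have hlead : q.coeff m = 1 := by
    rw [← hdeg]
    exact hq
  have hbig : q.coeff (m + 1) = 0 := by
    apply coeff_eq_zero_of_natDegree_lt
    omega
  have hD : derivative q * (X ^ 2 + C (a - 1) * X - C a) = q * (C (m : ℂ) * X + C (r * a - k)) := by
    show derivative ((X - 1) ^ r * (X + C a) ^ k : ℂ[X]) * _ = (X - 1) ^ r * (X + C a) ^ k * _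
    rw [derivative_mul, derivative_pow, derivative_pow]
    have e1 : derivative (X - 1 : ℂ[X]) = 1 := by simp
    have e2 : derivative (X + C a : ℂ[X]) = 1 := by simp
    rw [e1, e2]
    have e3 : (X ^ 2 + C (a - 1) * X - C a : ℂ[X]) = (X - 1) * (X + C a) := by
      rw [C_sub, C_1]; ring
    have e4 : (C (m : ℂ) * X + C (r * a - k) : ℂ[X]) = C (r : ℂ) * (X + C a) + C (k : ℂ) * (X - 1) := by
      simp only [m, Nat.cast_add, C_add, C_sub, C_mul]
      ring
    rw [e3, e4]
    have e5 : ∀ (n : ℕ) (x : ℂ[X]), (n : ℂ[X]) * x ^ (n - 1) * x = (n : ℂ[X]) * x ^ n := by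
      intro n x
      rcases n with _ | n
      · simp
      · rw [Nat.add_sub_cancel, pow_succ]; ring
    have e6 := e5 r (X - 1)
    have e7 := e5 k (X + C a)
    have e8 : ∀ n : ℕ, (C (n : ℂ) : ℂ[X]) = (n : ℂ[X]) := fun n => C_eq_natCast n
    rw [e8, e8]
    linear_combination ((X + C a) ^ (k + 1)) * e6 + ((X - 1) ^ (r + 1)) * e7
  have key : ∀ n : ℕ, (n : ℂ) * q.coeff n + (a - 1) * ((n + 1 : ℕ) : ℂ) * q.coeff (n + 1)
      - a * ((n + 2 : ℕ) : ℂ) * q.coeff (n + 2) = m * q.coeff n + (r * a - k) * q.coeff (n + 1) := by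
    intro n
    have h : (derivative q * (X ^ 2 + C (a - 1) * X - C a)).coeff (n + 1) =
        (q * (C (m : ℂ) * X + C (r * a - k))).coeff (n + 1) := by rw [hD]
    have e1 : derivative q * (X ^ 2 + C (a - 1) * X - C a) =
        derivative q * X ^ 2 + C (a - 1) * (derivative q * X) - C a * derivative q := by ring
    have e2 : q * (C (m : ℂ) * X + C (r * a - k)) = C (m : ℂ) * (q * X) + C (r * a - k) * q := by ring
    rw [e1, e2, coeff_sub, coeff_add, coeff_add, coeff_C_mul, coeff_C_mul, coeff_C_mul, coeff_C_mul,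
      coeff_mul_X, coeff_mul_X, coeff_derivative, coeff_derivative] at h
    have e3 : (derivative q * X ^ 2).coeff (n + 1) = q.coeff n * n := by
      rcases n with _ | n
      · rw [coeff_mul_X_pow']
        simp
      · rw [show n + 1 + 1 = n + 2 from rfl, coeff_mul_X_pow, coeff_derivative]
        push_cast
        ring
    rw [e3] at h
    push_cast at h ⊢
    linear_combination h
  obtain ⟨m', hm'⟩ : ∃ m', m = m' + 3 := ⟨m - 3, by omega⟩
  have k1 := key (m' + 2)
  have k2 := key (m' + 1)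
  have k3 := key m'
  rw [show m' + 2 + 1 = m by omega, show m' + 2 + 2 = m + 1 by omega, hbig, hlead] at k1
  rw [show m' + 1 + 1 = m' + 2 by omega, show m' + 1 + 2 = m by omega, hlead] at k2
  rw [show m - 1 = m' + 2 by omega, show m - 2 = m' + 1 by omega, show m - 3 = m' by omega]
  have hmc : (m : ℂ) = m' + 3 := by rw [hm']; push_cast; ring
  have hrk : (m : ℂ) = r + k := by simp [m]
  push_cast at k1 k2 k3
  refine ⟨?_, ?_, ?_⟩
  · rw [← mul_one (q.coeff (m' + 2))]
    linear_combination (-1 : ℂ) * k1 + (-q.coeff (m' + 2) ) * hmc + (a-1) * hrk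
  · linear_combination (-1 : ℂ) * k2 + (-q.coeff (m' + 1) - q.coeff (m'+2) * (a-1)) * hmc
  · linear_combination (-1 : ℂ) * k3 + (-q.coeff m' - q.coeff (m'+1) * (a-1) + a * q.coeff (m'+2)) * hmc

open Pool.Agent.X79.EC in
/-- **The part ALG.** -/
theorem t_ALG : S_ALG := by
  classical
  intro p m n₂ a₃ hp hpm hm3 hp0 hn₂ hc1 hc2 hc3 hS
  obtain ⟨P, hPdef⟩ : ∃ P : ℂ[X], P = p.map (Int.castRingHom ℂ) := ⟨_, rfl⟩
  rw [← hPdef] at hS
  have hPm : P.Monic := by rw [hPdef]; exact hp.map _
  have hPd : P.natDegree = m := by rw [hPdef, hp.natDegree_map, hpm]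
  have hP0 : P.eval 0 = 0 := by
    rw [hPdef, ← coeff_zero_eq_eval_zero, coeff_map, hp0, map_zero]
  -- the second root
  obtain ⟨z, hz, hroots⟩ : ∃ z : ℂ, z ≠ 0 ∧ ∀ w ∈ P.roots, w = 0 ∨ w = z := by
    by_cases h : ∃ z : ℂ, z ≠ 0 ∧ P.eval z = 0
    · obtain ⟨z, hz, hz0⟩ := h
      refine ⟨z, hz, fun w hw => ?_⟩
      have hw0 : P.eval w = 0 := (mem_roots'.1 hw).2
      by_contra hcon
      push Not at hcon
      have hsub : ({0, z, w} : Set ℂ) ⊆ {z : ℂ | P.eval z = 0} := by
        intro x hx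
        simp only [Set.mem_insert_iff, Set.mem_singleton_iff] at hx
        rcases hx with rfl | rfl | rfl
        · exact hP0
        · exact hz0
        · exact hw0
      have h3 : ({0, z, w} : Set ℂ).encard = 3 :=
        Set.encard_eq_three.2 ⟨0, z, w, hz.symm, hcon.1.symm, hcon.2.symm, rfl⟩
      have h4 := (Set.encard_le_encard hsub).trans hS
      rw [h3] at h4
      exact absurd h4 (by decide)
    · push Not at h
      refine ⟨1, one_ne_zero, fun w hw => Or.inl ?_⟩
      by_contra hw0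
      exact h w hw0 (mem_roots'.1 hw).2
  obtain ⟨r, hr⟩ : ∃ r, r = P.roots.count 0 := ⟨_, rfl⟩
  obtain ⟨k, hk⟩ : ∃ k, k = P.roots.count z := ⟨_, rfl⟩
  have hP := two_roots hPm hz hroots
  rw [← hr, ← hk] at hP
  have hmrk : m = r + k := by
    rw [← hPd, hP, (monic_X_pow r).natDegree_mul ((monic_X_sub_C z).pow k), natDegree_X_pow,
      (monic_X_sub_C z).natDegree_pow, natDegree_X_sub_C, mul_one]
  have hcomp : (p.comp (X - 1)).map (Int.castRingHom ℂ) = (X - 1) ^ r * (X + C (-1 - z)) ^ k := by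
    rw [Polynomial.map_comp, ← hPdef, hP]
    simp only [mul_comp, pow_comp, X_comp, sub_comp, C_comp, Polynomial.map_sub, Polynomial.map_X,
      Polynomial.map_one, C_sub, C_neg, C_1]
    congr 2
    ring
  have hcf : ∀ j, (((X - 1) ^ r * (X + C (-1 - z)) ^ k : ℂ[X])).coeff j =
      (((p.comp (X - 1)).coeff j : ℤ) : ℂ) := by
    intro j
    rw [← hcomp, coeff_map]
    rfl
  obtain ⟨c1, c2, c3⟩ := coeffs (r := r) (k := k) (a := -1 - z) (by omega)
  rw [hcf, ← hmrk, hc1] at c1
  rw [hcf, hcf, ← hmrk, hc1, hc2] at c2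
  rw [hcf, hcf, hcf, ← hmrk, hc1, hc2, hc3] at c3
  have hmc : (m : ℂ) = r + k := by rw [hmrk]; push_cast; ring
  have hk0 : k ≠ 0 := by
    rintro rfl
    have h1 : (r : ℂ) = 0 := by
      push_cast at c1
      linear_combination c1
    have h2 : r = 0 := by exact_mod_cast h1
    omega
  have hkC : (k : ℂ) ≠ 0 := Nat.cast_ne_zero.2 hk0
  -- `z` is an integer
  have hzm : (k : ℂ) * z = -m := by
    push_cast at c1
    linear_combination c1 + hmc
  have hz0 : P.eval z = 0 := by
    rw [hP, eval_mul, eval_pow, eval_pow, eval_sub, eval_X, eval_C, sub_self, zero_pow hk0, mul_zero]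
  have hint : IsIntegral ℤ z := by
    refine ⟨p, hp, ?_⟩
    have : P.eval z = 0 := hz0
    rw [hPdef, eval_map] at this
    exact this
  have hzq : z = algebraMap ℚ ℂ (-(m : ℚ) / k) := by
    rw [eq_ratCast]
    push_cast
    field_simp
    linear_combination hzm
  rw [hzq, isIntegral_algebraMap_iff (algebraMap ℚ ℂ).injective] at hint
  obtain ⟨y, hy⟩ := IsIntegrallyClosed.isIntegral_iff.1 hint
  have hy' : z = (y : ℂ) := by
    rw [hzq, ← hy]
    simp
  have hky : (k : ℤ) * y = -m := by
    rw [hy'] at hzm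
    exact_mod_cast hzm
  obtain ⟨t, ht⟩ : ∃ t : ℤ, t = -1 - y := ⟨_, rfl⟩
  have hkt : (k : ℤ) * t = r := by
    rw [ht, hmrk] at *
    push_cast at *
    linarith
  have ht0 : 0 ≤ t := by
    by_contra hneg
    push Not at hneg
    have hk1 : (1 : ℤ) ≤ k := by exact_mod_cast Nat.one_le_iff_ne_zero.2 hk0
    have : (0 : ℤ) ≤ r := by positivity
    nlinarith
  obtain ⟨a, rfl⟩ := Int.eq_ofNat_of_zero_le ht0
  have hza : -1 - z = (a : ℂ) := by
    have := congrArg (fun x : ℤ => (x : ℂ)) ht
    push_cast at this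
    rw [hy', this]
  rw [hza] at c1 c2 c3
  have hra : r = k * a := by exact_mod_cast hkt.symm
  have hraC : (r : ℂ) = k * a := by exact_mod_cast hra
  refine ⟨a, r, k, ?_, hra, hmrk, ?_, ?_⟩
  · apply Polynomial.map_injective (Int.castRingHom ℂ) Int.cast_injective
    rw [← hPdef, hP]
    simp only [Polynomial.map_mul, Polynomial.map_pow, Polynomial.map_X, Polynomial.map_add, Polynomial.map_C]
    congr 2
    rw [sub_eq_add_neg, ← C_neg]
    congr 2
    have : -z = (a : ℂ) + 1 := by linear_combination hza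
    rw [this]
    simp
  · have h1 : (m : ℂ) * a = 2 * n₂ := by
      push_cast at c2
      linear_combination c2
    exact_mod_cast h1
  · have h1 : (3 : ℂ) * a₃ = 2 * n₂ * ((a : ℂ) - 1) := by
      push_cast at c3
      rw [hmc, hraC] at c3
      linear_combination c3
    exact_mod_cast h1

end Pool.Agent.X326.EC
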